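import Pool.Agent.H283.HT.Stm

/-!
# Eight directions, part I: assembly
-/

set_option autoImplicit false

namespace Pool.Agent.H549.HTPARTI

open Pool.Agent.H283.HT

theorem RR_eq (x : P3) : R (R x) = x := by
  simp [R]

/-- `q` is periodic up to the sign. -/
theorem per {Q : Set P2} {q : ℝ → P2} (hq : Par Q q) (m : ℤ) (θ : ℝ) :
    q (θ + m * Real.pi) = q θ ∨ q (θ + m * Real.pi) = - q θ := by
  induction m using Int.induction_on with
  | zero => left; simp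
  | succ n ih =>
    have h1 := hq.anti (θ + ((n : ℤ) : ℝ) * Real.pi)
    have h2 : θ + (((n : ℤ) + 1 : ℤ) : ℝ) * Real.pi = θ + ((n : ℤ) : ℝ) * Real.pi + Real.pi := by
      push_cast
      ring
    rw [h2, h1]
    rcases ih with h | h
    · right; rw [h]
    · left; rw [h, neg_neg]
  | pred n ih =>
    have h1 := hq.anti (θ + ((-(n : ℤ) - 1 : ℤ) : ℝ) * Real.pi)
    have h2 : θ + ((-(n : ℤ) - 1 : ℤ) : ℝ) * Real.pi + Real.pi =
        θ + ((-(n : ℤ) : ℤ) : ℝ) * Real.pi := by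
      push_cast
      ring
    rw [h2] at h1
    have h3 : q (θ + ((-(n : ℤ) - 1 : ℤ) : ℝ) * Real.pi) =
        - q (θ + ((-(n : ℤ) : ℤ) : ℝ) * Real.pi) := by rw [h1, neg_neg]
    rw [h3]
    rcases ih with h | h
    · right; rw [h]
    · left; rw [h, neg_neg]

/-- Every value of `q` is, up to the sign, a value on `[a, a + π)`. -/
theorem reduce {Q : Set P2} {q : ℝ → P2} (hq : Par Q q) (a θ : ℝ) :
    ∃ θ' : ℝ, a ≤ θ' ∧ θ' ≤ a + Real.pi ∧ (q θ = q θ' ∨ q θ = - q θ') := by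
  have hpi := Real.pi_pos
  refine ⟨θ - (⌊(θ - a) / Real.pi⌋ : ℝ) * Real.pi, ?_, ?_, ?_⟩
  · have h1 := Int.floor_le ((θ - a) / Real.pi)
    rw [le_div_iff₀ hpi] at h1
    linarith
  · have h1 := (Int.lt_floor_add_one ((θ - a) / Real.pi)).le
    rw [div_le_iff₀ hpi] at h1
    linarith
  · have h1 := per hq ⌊(θ - a) / Real.pi⌋ (θ - (⌊(θ - a) / Real.pi⌋ : ℝ) * Real.pi)
    rwa [sub_add_cancel] at h1

theorem PARTI_done (hSH : S_SH) (hRC : S_RC) (hPAR : S_PAR) (hARC3 : S_ARC3) : S_PARTI := by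
  classical
  intro K hK hLow
  obtain ⟨hD, -⟩ := hSH K hK
  obtain ⟨q, hq⟩ := hPAR (Sh K) hD
  obtain ⟨a, b, c, hab, hbc, hca, ⟨d₁, h₁⟩, ⟨d₂, h₂⟩, ⟨d₃, h₃⟩⟩ := hARC3 K q hK hD hq hLow
  obtain ⟨hR, -, -, hint⟩ := hRC K hK
  have key : ∀ θ : ℝ, a ≤ θ → θ ≤ a + Real.pi → ∀ x ∈ K, x.1 = q θ →
      d₁ ∈ C K x ∨ d₂ ∈ C K x ∨ d₃ ∈ C K x := by
    intro θ ha hb x hx hxq
    rcases le_total θ b with h | h
    · exact Or.inl (h₁ θ ha h x hx hxq)
    · rcases le_total θ c with h' | h'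
      · exact Or.inr (Or.inl (h₂ θ h h' x hx hxq))
      · exact Or.inr (Or.inr (h₃ θ h' hb x hx hxq))
  refine ⟨Finset.univ.image (![d₁, d₂, d₃, R d₁, R d₂, R d₃, (((0 : P2), (1 : ℝ)) : P3),
    (((0 : P2), (-1 : ℝ)) : P3)] : Fin 8 → P3), ?_, fun x hx => ?_⟩
  · refine Finset.card_image_le.trans ?_
    simp
  · by_cases hxi : x.1 ∈ interior (Sh K)
    · rcases hint x hx hxi with h | h
      · exact ⟨_, Finset.mem_image.2 ⟨6, Finset.mem_univ _, rfl⟩, h⟩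
      · exact ⟨_, Finset.mem_image.2 ⟨7, Finset.mem_univ _, rfl⟩, h⟩
    · obtain ⟨θ, hθ⟩ := hq.onto x.1 ⟨x, hx, rfl⟩ hxi
      obtain ⟨θ', ha, hb, h | h⟩ := reduce hq a θ
      · rcases key θ' ha hb x hx (by rw [← hθ, h]) with h' | h' | h'
        · exact ⟨_, Finset.mem_image.2 ⟨0, Finset.mem_univ _, rfl⟩, h'⟩
        · exact ⟨_, Finset.mem_image.2 ⟨1, Finset.mem_univ _, rfl⟩, h'⟩
        · exact ⟨_, Finset.mem_image.2 ⟨2, Finset.mem_univ _, rfl⟩, h'⟩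
      · have h1 : (R x).1 = q θ' := by
          change -x.1 = q θ'
          rw [← hθ, h, neg_neg]
        rcases key θ' ha hb (R x) (hK.sym x hx) h1 with h' | h' | h'
        · have h2 := hR _ _ h'
          rw [RR_eq] at h2
          exact ⟨_, Finset.mem_image.2 ⟨3, Finset.mem_univ _, rfl⟩, h2⟩
        · have h2 := hR _ _ h'
          rw [RR_eq] at h2
          exact ⟨_, Finset.mem_image.2 ⟨4, Finset.mem_univ _, rfl⟩, h2⟩
        · have h2 := hR _ _ h'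
          rw [RR_eq] at h2
          exact ⟨_, Finset.mem_image.2 ⟨5, Finset.mem_univ _, rfl⟩, h2⟩

end Pool.Agent.H549.HTPARTI
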