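import Pool.Agent.H812.Gi.Spec
import Pool.Graph.R_seed8.W811.Stu.Grow

/-!
Part `GTv` of the project GI of helper812: leaves are transversal to `z_j = const`.
-/

set_option autoImplicit false

open Real Filter Topology Set
open scoped ContDiff

namespace Pool.Agent.H549.GiTv

open Pool.Agent.W811.Stu Pool.Agent.H812.Tm Pool.Agent.H812.Gi

/-- the derivative of the level function on trace space is the `y`-component of the tangent map -/
lemma fderiv_Yp_dorb (d : ℕ → ℕ) (M : ℕ) (q u : ℝ × ℝ × ℝ) :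
    fderiv ℝ (Yp d M) q u = (dorb d (pt q) (pt u) M).y := by
  have h1 : HasDerivAt (fun s : ℝ => q + s • u) u 0 := by
    have := ((hasDerivAt_id (0 : ℝ)).smul_const u).const_add q
    simpa using this
  have h2 : HasDerivAt (fun s : ℝ => Yp d M (q + s • u)) (fderiv ℝ (Yp d M) q u) 0 := by
    have h3 : HasFDerivAt (Yp d M) (fderiv ℝ (Yp d M) q) (q + (0 : ℝ) • u) := by
      rw [zero_smul, add_zero]
      exact Yp_hasF d M q
    exact h3.comp_hasDerivAt (0 : ℝ) h1
  have h4 : HasDer (fun s : ℝ => pt (q + s • u)) (pt u) 0 := by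
    refine ⟨?_, ?_, ?_⟩
    · exact (hasFDerivAt_snd.comp_hasDerivAt (0 : ℝ)
        (hasFDerivAt_snd.comp_hasDerivAt (0 : ℝ) h1))
    · exact (hasFDerivAt_fst.comp_hasDerivAt (0 : ℝ)
        (hasFDerivAt_snd.comp_hasDerivAt (0 : ℝ) h1))
    · exact (hasFDerivAt_fst.comp_hasDerivAt (0 : ℝ) h1)
  have h5 := (h4.orb d M).2.1
  have h6 : (fun s : ℝ => (orb d (pt (q + s • u)) M).y) = fun s => Yp d M (q + s • u) := rfl
  rw [h6] at h5
  have h7 := h2.unique h5
  rw [zero_smul, add_zero] at h7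
  exact h7

/-- a tangent vector with `z = 0` is a multiple of `fV`, where `|z| ≤ 1` -/
lemma exists_fV {δ : ℝ} (hδ : δ ≠ 0) {q u : ℝ × ℝ × ℝ} (hq : FS δ q = 0) (hz : |q.2.2| ≤ 1)
    (hu : fderiv ℝ (FS δ) q u = 0) (hu0 : u.2.2 = 0) (hne : u ≠ 0) :
    ∃ c : ℝ, c ≠ 0 ∧ pt u = lc c (fV (pt q)) 0 (fV (pt q)) := by
  rw [FS_fderiv] at hu
  rw [hu0, mul_zero, add_zero] at hu
  obtain ⟨x, y, z⟩ := q
  obtain ⟨a, b, c⟩ := u
  simp only at hu hu0 hz
  subst hu0
  set X := x - y * z with hX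
  set Y := y - x * z with hY
  have hXY : 0 < X ^ 2 + Y ^ 2 := by
    by_contra hcon
    have hX2 : X ^ 2 = 0 := le_antisymm (by nlinarith [sq_nonneg X, sq_nonneg Y]) (sq_nonneg X)
    have hY2 : Y ^ 2 = 0 := le_antisymm (by nlinarith [sq_nonneg X, sq_nonneg Y]) (sq_nonneg Y)
    have hX0 : x = y * z := by
      have := pow_eq_zero_iff (two_ne_zero) |>.1 hX2
      linarith
    have hY0 : y = x * z := by
      have := pow_eq_zero_iff (two_ne_zero) |>.1 hY2
      linarith
    unfold FS at hq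
    simp only at hq
    have hz2 : z ^ 2 ≤ 1 := by
      have := abs_le.1 hz
      nlinarith
    have hδ2 : 0 < δ ^ 2 := by positivity
    have h1 : x ^ 2 + y ^ 2 + z ^ 2 - 2 * x * y * z = z ^ 2 := by
      have e1 : x ^ 2 = x * y * z := by
        calc x ^ 2 = x * x := by ring
          _ = x * (y * z) := by rw [← hX0]
          _ = x * y * z := by ring
      have e2 : y ^ 2 = x * y * z := by
        calc y ^ 2 = y * y := by ring
          _ = y * (x * z) := by rw [← hY0]
          _ = x * y * z := by ring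
      linarith
    linarith
  refine ⟨(X * b - Y * a) / (X ^ 2 + Y ^ 2), ?_, ?_⟩
  · intro h0
    rw [div_eq_zero_iff] at h0
    rcases h0 with h0 | h0
    · have h1 : X * a + Y * b = 0 := by linarith
      have ha : a * (X ^ 2 + Y ^ 2) = 0 := by linear_combination X * h1 - Y * h0
      have hb : b * (X ^ 2 + Y ^ 2) = 0 := by linear_combination Y * h1 + X * h0
      have ha0 : a = 0 := by
        rcases mul_eq_zero.1 ha with h | h
        · exact h
        · exact absurd h hXY.ne'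
      have hb0 : b = 0 := by
        rcases mul_eq_zero.1 hb with h | h
        · exact h
        · exact absurd h hXY.ne'
      apply hne
      rw [ha0, hb0]
      rfl
    · exact hXY.ne' h0
  · have h1 : X * a + Y * b = 0 := by linarith
    have e1 : b = (X * b - Y * a) / (X ^ 2 + Y ^ 2) * X := by
      field_simp
      linear_combination Y * h1
    have e2 : a = (X * b - Y * a) / (X ^ 2 + Y ^ 2) * (-Y) := by
      field_simp
      linear_combination X * h1
    unfold lc fV gX gB pt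
    simp only
    rw [← hX, ← hY]
    ext
    · simp
    · simp only
      linarith
    · simp only
      linarith

theorem tGTv (hC : SCoord) (hE : SEsc) (hLip : SLip) : GTv := by
  intro δ κ θ d hx n j v hv hz h0
  obtain ⟨hvU, hal⟩ := hv
  have hd := hx.hd
  have hδ := hx.hδ
  set s : ℝ := sg θ δ (shd d n) v with hs
  set q : ℝ × ℝ × ℝ := go d n (zh δ v) with hq
  set u0 : ℝ × ℝ × ℝ := fderiv ℝ (zh δ) v (1, s) with hu0
  set u : ℝ × ℝ × ℝ := fderiv ℝ (go d n) (zh δ v) u0 with hu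
  set uj : ℝ × ℝ × ℝ := fderiv ℝ (fo d j) q u with huj
  have hfq : fo d n q = zh δ v := by rw [hq, fo_go]
  have hFq : FS δ q = 0 := by rw [hq, FS_go]; exact zh_FS hC hvU
  have hfu : fderiv ℝ (fo d n) q u = u0 := by
    have := fderiv_go_fo d n q u0
    rw [hfq] at this
    rw [hu]
    exact this
  have hu0ne : u0 ≠ 0 := by
    intro h
    have h2 := fderiv_zh_z hC (δ := δ) hvU (1, s)
    rw [← hu0, h] at h2
    simp at h2
  have hune : u ≠ 0 := by
    intro h
    rw [h, map_zero] at hfu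
    exact hu0ne hfu.symm
  have hujne : uj ≠ 0 := by
    intro h
    have h1 := fderiv_go_fo' d j q u
    rw [← huj, h, map_zero] at h1
    exact hune h1.symm
  -- the derivative in question is `uj.2.2`
  have h1 : HasFDerivAt (zh δ) (fderiv ℝ (zh δ) v) v :=
    ((zh_smoothAt hC δ hvU).differentiableAt (by norm_num)).hasFDerivAt
  have h2 : HasFDerivAt (go d n) (fderiv ℝ (go d n) (zh δ v)) (zh δ v) :=
    ((go_smooth d n).differentiable (by norm_num)).differentiableAt.hasFDerivAt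
  have h3 : HasFDerivAt (fo d j) (fderiv ℝ (fo d j) q) q :=
    ((fo_smooth d j).differentiable (by norm_num)).differentiableAt.hasFDerivAt
  have h4 := h3.comp v (h2.comp v h1)
  have h5 := (hasFDerivAt_snd (𝕜 := ℝ) (E := ℝ) (F := ℝ) (p := (fo d j q).2)).comp v
    ((hasFDerivAt_snd (𝕜 := ℝ) (E := ℝ) (F := ℝ × ℝ) (p := fo d j q)).comp v h4)
  have h6 : HasFDerivAt (fun w => (orb d (borb d n (ze δ w)) j).z) _ v := h5
  rw [h6.fderiv] at h0
  have hz0 : uj.2.2 = 0 := h0
  have hFqj : FS δ (fo d j q) = 0 := by rw [FS_fo]; exact hFq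
  have htan : fderiv ℝ (FS δ) (fo d j q) uj = 0 := by
    rw [huj, fderiv_FS_fo, ← fderiv_FS_fo δ d n q u, hfq, hfu]
    exact fderiv_FS_zh hC hvU _
  have hz' : |(fo d j q).2.2| ≤ 1 := hz
  obtain ⟨c, hc, hcu⟩ := exists_fV hδ hFqj hz' htan hz0 hujne
  -- the derivatives of the level functions
  have key : ∀ M, n ≤ M → c * Vy (shd d j) M (pt (fo d j q)) =
      dz (Yf δ (shd d n) (j + M - n)) v + s * dt (Yf δ (shd d n) (j + M - n)) v := by
    intro M hM
    have e1 : fderiv ℝ (Yp d (j + M)) q u = c * Vy (shd d j) M (pt (fo d j q)) := by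
      rw [fderiv_Yp_add, ← huj, fderiv_Yp_dorb, hcu, dorb_lc]
      unfold lc Vy
      simp
    have e2 : fderiv ℝ (Yp d (n + (j + M - n))) q u =
        dz (Yf δ (shd d n) (j + M - n)) v + s * dt (Yf δ (shd d n) (j + M - n)) v := by
      rw [fderiv_Yp_add, hfu, hfq, hu0, ← fderiv_Yf hC δ (shd d n) (j + M - n) hvU, fderiv_split]
      ring
    have e3 : n + (j + M - n) = j + M := by omega
    rw [e3] at e2
    rw [← e1, e2]
  have hd' : ∀ k, 1 ≤ shd d n k := fun k => hd _
  have hdj : ∀ k, 1 ≤ shd d j k := fun k => hd _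
  obtain ⟨C, hC0, hL⟩ := hLip δ κ κ |v.1| (shd d n) θ hδ hx.hκ1 hx.hκ hx.hκ1 hvU hd' hx.hθ
  have hLv := (hL v le_rfl hal).1
  -- alive at stage `j`
  have hon : orb d (pt q) n = ze δ v := by
    have h7 : pt (fo d n q) = pt (zh δ v) := by rw [hfq]
    exact h7
  have hWS : q ∈ WS δ d := by
    refine mem_WS_of_alive hE hδ hd hFq n ?_ ?_
    · rw [hon]
      exact le_of_lt hvU
    · rw [hon]
      exact hal
  have hal1 := alive_of_mem_WS hE hδ hd hWS j hz
  obtain ⟨c0, hc0, hlow⟩ := tLB δ 1 hδ (by norm_num) (one_lt_cc hδ)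
  have hcp : 0 < |c| := abs_pos.2 hc
  obtain ⟨N, hN⟩ := pow_unbounded_of_one_lt (C / (|c| * c0)) (by norm_num : (1:ℝ) < 2)
  have hM : ∃ M, 2 * N + 2 + n ≤ M ∧ |(orb (shd d j) (orb d (pt q) j) M).y| ≤ 1 := by
    rcases hal1 (2 * N + 2 + n) with h | h
    · exact ⟨2 * N + 2 + n, le_rfl, h⟩
    · exact ⟨2 * N + 2 + n + 1, by omega, h⟩
  obtain ⟨M, hM1, hM2⟩ := hM
  have hOn : OnS δ (orb d (pt q) j) := FS_tp.1 hFqj
  have h8 := hlow (shd d j) hdj M (by omega) (orb d (pt q) j) hOn hz hM2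
  have h9 := key M (by omega)
  have h10 := hLv (j + M - n)
  rw [← hs, ← h9, abs_mul] at h10
  have h11 : (2:ℝ) ^ N ≤ 2 ^ (M / 2) := pow_le_pow_right₀ (by norm_num) (by omega)
  have h12 : C < |c| * c0 * 2 ^ N := by
    rw [div_lt_iff₀ (by positivity)] at hN
    linarith
  have h13 : |c| * (c0 * 2 ^ (M / 2)) ≤ |c| * |Vy (shd d j) M (pt (fo d j q))| :=
    mul_le_mul_of_nonneg_left h8 hcp.le
  have h14 : |c| * c0 * 2 ^ N ≤ |c| * c0 * 2 ^ (M / 2) :=
    mul_le_mul_of_nonneg_left h11 (by positivity)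
  nlinarith

end Pool.Agent.H549.GiTv
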