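import Pool.Agent.H812.Tm.Spec4

/-!
Part `SLip` of the project TM of helper812: derivatives along the leaves are bounded.
-/

set_option autoImplicit false
set_option linter.unusedVariables false

open Real Filter Topology Set
open scoped ContDiff

namespace Pool.Agent.H549.Tm

open Pool.Agent.W811.Stu Pool.Agent.H812.Tm

/-! ### elementary facts -/

theorem isOpen_U : IsOpen U := by
  have : U = (fun v : ℝ × ℝ => |v.1|) ⁻¹' Iio 1 := rfl
  rw [this]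
  exact isOpen_Iio.preimage (by fun_prop)

theorem mem_U {v : ℝ × ℝ} {r : ℝ} (hr : r < 1) (h : |v.1| ≤ r) : v ∈ U := lt_of_le_of_lt h hr

theorem aux {a b c X C1 C2 m : ℝ} (ha : 0 ≤ a) (hb : 0 < b) (hm : 0 < m) (hmc : m ≤ c)
    (hX : 0 ≤ X) (h1 : X * (b * c) ≤ C1) (h2 : a ≤ C2 * b) (hC2 : 0 ≤ C2) :
    a * X ≤ C1 * C2 / m := by
  rw [le_div_iff₀ hm]
  calc a * X * m ≤ (C2 * b) * X * c := by
        apply mul_le_mul (mul_le_mul_of_nonneg_right h2 hX) hmc hm.le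
        exact mul_nonneg (mul_nonneg hC2 hb.le) hX
    _ = C2 * (X * (b * c)) := by ring
    _ ≤ C2 * C1 := mul_le_mul_of_nonneg_left h1 hC2
    _ = C1 * C2 := mul_comm _ _

theorem two_pow_half (l : ℕ) : 1 / (2 : ℝ) ^ (l / 2) ≤ 2 * (3 / 4) ^ l := by
  induction l using Nat.strong_induction_on with
  | _ l ih =>
    rcases l with _ | _ | l
    · norm_num
    · norm_num
    · have h1 := ih l (by omega)
      have h2 : (l + 1 + 1) / 2 = l / 2 + 1 := by omega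
      rw [h2, pow_succ, pow_succ, pow_succ]
      have h3 : 1 / ((2 : ℝ) ^ (l / 2) * 2) = (1 / (2 : ℝ) ^ (l / 2)) / 2 := by
        rw [div_div]
      rw [h3]
      have h4 : (0 : ℝ) ≤ (3 / 4) ^ l := by positivity
      nlinarith

theorem one_le_two_pow (n : ℕ) : (1 : ℝ) ≤ 2 ^ n := one_le_pow₀ (by norm_num)

/-- sum of a geometric series -/
theorem geo {x : ℝ} (h0 : 0 ≤ x) (h1 : x < 1) (n : ℕ) :
    ∑ k ∈ Finset.range n, x ^ k ≤ 1 / (1 - x) := by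
  have h2 : 0 < 1 - x := by linarith
  have h3 : (∑ k ∈ Finset.range n, x ^ k) * (1 - x) = 1 - x ^ n := by
    have := geom_sum_mul x n
    linarith
  rw [le_div_iff₀ h2, h3]
  have := pow_nonneg h0 n
  linarith

theorem dz_eq {f : ℝ × ℝ → ℝ} {v : ℝ × ℝ} (h : dt f v ≠ 0) : dz f v = -sl f v * dt f v := by
  unfold sl
  field_simp

theorem D_eq {f : ℝ × ℝ → ℝ} {v : ℝ × ℝ} (h : dt f v ≠ 0) (s : ℝ) :
    |dz f v + s * dt f v| = |dt f v| * |s - sl f v| := by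
  rw [dz_eq h, ← abs_mul]
  congr 1
  ring

/-! ### bounds for the derivatives of level functions -/

theorem pbY (h1 : SSlope) (h2 : SLow) (h3 : SLag) {δ κ r : ℝ} (hδ : δ ≠ 0) (hκ : 0 ≤ κ)
    (hκ' : κ < cc δ) (hr : r < 1) : ∃ L : ℝ, 0 < L ∧ ∀ d : ℕ → ℕ, (∀ k, 1 ≤ d k) → ∀ m, 2 ≤ m →
      ∀ v : ℝ × ℝ, |v.1| ≤ r → |Yf δ d m v| ≤ κ → PB L (Yf δ d m) v := by
  obtain ⟨C1, hC1, H1⟩ := h1 δ r hδ hr
  obtain ⟨c0, hc0, H2⟩ := h2 δ κ hδ hκ hκ'
  have hgap : 0 < cc δ - κ := by linarith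
  refine ⟨max C1 (1 / (cc δ - κ)), lt_max_of_lt_left hC1, fun d hd m hm v hv hY => ⟨?_, ?_, ?_⟩⟩
  · have h4 := H2 d hd m hm v (mem_U hr hv) hY
    have h5 : 0 < c0 * 2 ^ (m / 2) := by positivity
    intro h6
    rw [h6, abs_zero] at h4
    linarith
  · exact (H1 d hd m hm v hv (lt_of_le_of_lt hY hκ')).trans
      (mul_le_mul_of_nonneg_right (le_max_left _ _) (abs_nonneg _))
  · have h4 := h3 δ hδ d hd m hm v (mem_U hr hv) (lt_of_le_of_lt hY hκ')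
    have h5 : |dt (dt (Yf δ d m)) v| * (cc δ - κ) ≤ (dt (Yf δ d m) v) ^ 2 :=
      (mul_le_mul_of_nonneg_left (by linarith) (abs_nonneg _)).trans h4
    have h6 : |dt (dt (Yf δ d m)) v| ≤ 1 / (cc δ - κ) * (dt (Yf δ d m) v) ^ 2 := by
      rw [one_div, inv_mul_eq_div, le_div_iff₀ hgap]
      exact h5
    exact h6.trans (mul_le_mul_of_nonneg_right (le_max_right _ _) (sq_nonneg _))

/-- statements about `T` from statements about `Y` -/
theorem T_of_Y {δ : ℝ} {P : (ℝ × ℝ → ℝ) → Prop} {m0 : ℕ}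
    (h : ∀ d : ℕ → ℕ, (∀ k, 1 ≤ d k) → ∀ m, m0 ≤ m → P (Yf δ d m)) :
    ∀ d : ℕ → ℕ, (∀ k, 1 ≤ d k) → ∀ j k, m0 + 1 ≤ j → P (Tf δ d j k) := by
  intro d hd j k hj
  rcases Nat.eq_zero_or_pos k with rfl | hk
  · obtain ⟨i, rfl⟩ : ∃ i, j = i + 1 := ⟨j - 1, by omega⟩
    rw [Tf_zero]
    exact h d hd i (by omega)
  · rw [Tf_eq]
    exact h _ (update_ge hd j hk) (j + 1) (by omega)

theorem smT (h : SDt) (δ : ℝ) (d : ℕ → ℕ) (j k : ℕ) : ContDiffOn ℝ ∞ (Tf δ d j k) U := by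
  rw [Tf_eq]
  exact (h _ _ _).1

/-- all estimates at one point -/
structure Cst (δ κ r : ℝ) (C1 c0 : ℝ) : Prop where
  C1p : 0 < C1
  c0p : 0 < c0
  neY : ∀ d : ℕ → ℕ, (∀ k, 1 ≤ d k) → ∀ m, 2 ≤ m → ∀ v : ℝ × ℝ, |v.1| ≤ r →
    |Yf δ d m v| ≤ κ → dt (Yf δ d m) v ≠ 0
  neT : ∀ d : ℕ → ℕ, (∀ k, 1 ≤ d k) → ∀ j k, 3 ≤ j → ∀ v : ℝ × ℝ, |v.1| ≤ r →
    |Tf δ d j k v| ≤ κ → dt (Tf δ d j k) v ≠ 0
  loY : ∀ d : ℕ → ℕ, (∀ k, 1 ≤ d k) → ∀ m, 2 ≤ m → ∀ v : ℝ × ℝ, |v.1| ≤ r →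
    |Yf δ d m v| ≤ κ → c0 * 2 ^ (m / 2) ≤ |dt (Yf δ d m) v|
  loT : ∀ d : ℕ → ℕ, (∀ k, 1 ≤ d k) → ∀ j k, 3 ≤ j → 1 ≤ k → ∀ v : ℝ × ℝ, |v.1| ≤ r →
    |Tf δ d j k v| ≤ κ → c0 * 2 ^ ((j + 1) / 2) ≤ |dt (Tf δ d j k) v|
  prY : ∀ d : ℕ → ℕ, (∀ k, 1 ≤ d k) → ∀ l, 2 ≤ l → ∀ v : ℝ × ℝ, |v.1| ≤ r →
    |Yf δ d l v| ≤ κ → |Yf δ d (l + 1) v| ≤ κ →
    |sl (Yf δ d (l + 1)) v - sl (Yf δ d l) v| * (|dt (Yf δ d l) v| * |dt (Yf δ d (l + 1)) v|) ≤ C1
  prT : ∀ d : ℕ → ℕ, (∀ k, 1 ≤ d k) → ∀ j k, 3 ≤ j → ∀ v : ℝ × ℝ, |v.1| ≤ r →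
    |Tf δ d j k v| ≤ κ → |Tf δ d j (k + 1) v| ≤ κ →
    |sl (Tf δ d j (k + 1)) v - sl (Tf δ d j k) v| *
      (|dt (Tf δ d j k) v| * |dt (Tf δ d j (k + 1)) v|) ≤ C1

theorem exists_Cst (h1 : SSlope) (h2 : SLow) (h3 : SLag) (h4 : SPair) (h5 : SBr) (h6 : SDt)
    {δ κ r : ℝ} (hδ : δ ≠ 0) (hκ : 1 ≤ κ) (hκ' : κ < cc δ) (hr : r < 1) :
    ∃ C1 c0, Cst δ κ r C1 c0 := by
  have hκ0 : 0 ≤ κ := by linarith
  obtain ⟨L, hL, HL⟩ := pbY h1 h2 h3 hδ hκ0 hκ' hr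
  obtain ⟨c0, hc0, H2⟩ := h2 δ κ hδ hκ0 hκ'
  obtain ⟨C1, hC1, HP⟩ := h4 δ κ r L hδ hκ hκ' hr hL.le
  have HT : ∀ d : ℕ → ℕ, (∀ k, 1 ≤ d k) → ∀ j k, 3 ≤ j → ∀ v : ℝ × ℝ, |v.1| ≤ r →
      |Tf δ d j k v| ≤ κ → PB L (Tf δ d j k) v := by
    intro d hd j k hj
    refine T_of_Y (δ := δ) (m0 := 2) (P := fun f => ∀ v : ℝ × ℝ, |v.1| ≤ r → |f v| ≤ κ → PB L f v)
      ?_ d hd j k hj
    exact HL
  refine ⟨C1, c0, hC1, hc0, fun d hd m hm v hv hY => (HL d hd m hm v hv hY).ne,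
    fun d hd j k hj v hv hT => (HT d hd j k hj v hv hT).ne,
    fun d hd m hm v hv hY => H2 d hd m hm v (mem_U hr hv) hY, ?_, ?_, ?_⟩
  · intro d hd j k hj hk v hv hT
    rw [Tf_eq] at hT ⊢
    exact H2 _ (update_ge hd j hk) (j + 1) (by omega) v (mem_U hr hv) hT
  · intro d hd l hl v hv hY hY'
    have e := (h6 δ d l).1
    refine (HP (Yf δ d l) (Yf δ d (l + 1)) (h6 δ d l).1 (h6 δ d (l + 1)).1 ?_ v hv hY hY'
      (HL d hd l hl v hv hY) (HL d hd (l + 1) (by omega) v hv hY')).1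
    intro w hw
    have := (h5 δ d l (d l) w hw).1
    rwa [Tf_last] at this
  · intro d hd j k hj v hv hT hT'
    refine (HP (Tf δ d j k) (Tf δ d j (k + 1)) (smT h6 δ d j k) (smT h6 δ d j (k + 1)) ?_ v hv
      hT hT' (HT d hd j k hj v hv hT) (HT d hd j (k + 1) hj v hv hT')).1
    intro w hw
    exact (h5 δ d j k w hw).2

/-! ### comparison of the slopes of two good levels -/

/-- constants for a sequence of digits -/
structure Kst (δ κ r : ℝ) (d : ℕ → ℕ) (C1 c0 CG CR CT cX : ℝ) (N : ℕ) : Prop extends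
    Cst δ κ r C1 c0 where
  hd : ∀ k, 1 ≤ d k
  hr : r < 1
  hκ : 1 < κ
  CGp : 0 < CG
  CRp : 0 < CR
  CTp : 0 < CT
  cXp : 0 < cX
  rg : ∀ m M, 1 ≤ m → m ≤ M → ∀ v ∈ U, |Yf δ d m v| ≤ κ →
    |Yf δ d M v| ≤ κ → |dt (Yf δ d m) v| * 2 ^ ((M - m) / 2) ≤ CG * |dt (Yf δ d M) v|
  rev : ∀ j k, 1 ≤ j → 1 ≤ k → ∀ v ∈ U, |Tf δ d j k v| ≤ κ →
    |dt (Yf δ d j) v| ≤ CR * |dt (Tf δ d j k) v|
  rgt : ∀ j k l, k ≤ l → ∀ v ∈ U, κ ≤ |Yf δ d j v| → |Tf δ d j k v| ≤ κ → |Tf δ d j l v| ≤ κ →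
    |dt (Tf δ d j k) v| * κ ^ (l - k) ≤ CT * |dt (Tf δ d j l) v|
  run : ∀ j k, 2 ≤ j → 1 ≤ k → ∀ v ∈ U, κ ≤ |Yf δ d j v| → |Tf δ d j k v| ≤ κ →
    cX * κ ^ k * 2 ^ (j / 2) ≤ |dt (Tf δ d j k) v|
  win : ∀ j, ∀ v ∈ U, 1 < |Yf δ d j v| → |Yf δ d j v| ≤ κ → |Tf δ d j 0 v| ≤ κ →
    |Tf δ d j (d j) v| ≤ κ → d j ≤ N

namespace Kst

variable {δ κ r : ℝ} {d : ℕ → ℕ} {C1 c0 CG CR CT cX : ℝ} {N : ℕ}
  (K : Kst δ κ r d C1 c0 CG CR CT cX N) {v : ℝ × ℝ} (hv : |v.1| ≤ r)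

include K hv

theorem rg' {m M : ℕ} (hm : 1 ≤ m) (hM : m ≤ M) (h1 : |Yf δ d m v| ≤ κ)
    (h2 : |Yf δ d M v| ≤ κ) : |dt (Yf δ d m) v| ≤ CG * |dt (Yf δ d M) v| := by
  have h3 := K.rg m M hm hM v (mem_U K.hr hv) h1 h2
  refine le_trans ?_ h3
  exact le_mul_of_one_le_right (abs_nonneg _) (one_le_two_pow _)

theorem step1 {j l : ℕ} (hj : 2 ≤ j) (hl : j ≤ l) (h1 : |Yf δ d j v| ≤ κ)
    (h2 : |Yf δ d l v| ≤ κ) (h3 : |Yf δ d (l + 1) v| ≤ κ) :
    |dt (Yf δ d j) v| * |sl (Yf δ d (l + 1)) v - sl (Yf δ d l) v| ≤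
      C1 * CG / (c0 * 2 ^ ((l + 1) / 2)) := by
  have h4 : 0 < |dt (Yf δ d l) v| := abs_pos.2 (K.neY d K.hd l (by omega) v hv h2)
  have hc := K.c0p
  exact aux (abs_nonneg _) h4 (by positivity) (K.loY d K.hd (l + 1) (by omega) v hv h3)
    (abs_nonneg _) (K.prY d K.hd l (by omega) v hv h2 h3) (K.rg' hv (by omega) hl h1 h2) K.CGp.le

theorem step2 {j l : ℕ} (hj : 2 ≤ j) (hl : j ≤ l) (h1 : |Yf δ d j v| ≤ κ)
    (h3 : 1 < |Yf δ d (l + 1) v|) (hT : ∀ i ≤ d (l + 1), |Tf δ d (l + 1) i v| ≤ κ) :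
    |dt (Yf δ d j) v| * |sl (Yf δ d (l + 2)) v - sl (Yf δ d l) v| ≤
      (C1 * (CG * CT) / cX * (1 / (1 - 1 / κ)) + N * (C1 * (CG + CG * CR) / c0)) /
        2 ^ ((l + 1) / 2) := by
  have hU := mem_U K.hr hv
  have hC1 := K.C1p
  have hc0 := K.c0p
  have hCG := K.CGp
  have hCR := K.CRp
  have hCT := K.CTp
  have hcX := K.cXp
  have hκ := K.hκ
  have hκ0 : 0 < κ := by linarith
  have hx0 : 0 ≤ 1 / κ := by positivity
  have hx1 : 1 / κ < 1 := by rw [div_lt_one hκ0]; exact hκ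
  have hpow : (0 : ℝ) < 2 ^ ((l + 1) / 2) := by positivity
  have h0 : |Yf δ d l v| ≤ κ := by
    have := hT 0 (Nat.zero_le _)
    rwa [Tf_zero] at this
  have hdl : 0 < |dt (Yf δ d l) v| := abs_pos.2 (K.neY d K.hd l (by omega) v hv h0)
  have e1 : sl (Yf δ d (l + 2)) v - sl (Yf δ d l) v =
      ∑ k ∈ Finset.range (d (l + 1)), (sl (Tf δ d (l + 1) (k + 1)) v - sl (Tf δ d (l + 1) k) v) := by
    rw [Finset.sum_range_sub (fun k => sl (Tf δ d (l + 1) k) v), Tf_last, Tf_zero]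
  have e2 : |dt (Yf δ d j) v| * |sl (Yf δ d (l + 2)) v - sl (Yf δ d l) v| ≤
      ∑ k ∈ Finset.range (d (l + 1)), |dt (Yf δ d j) v| *
        |sl (Tf δ d (l + 1) (k + 1)) v - sl (Tf δ d (l + 1) k) v| := by
    rw [e1, ← Finset.mul_sum]
    exact mul_le_mul_of_nonneg_left (Finset.abs_sum_le_sum_abs _ _) (abs_nonneg _)
  refine e2.trans ?_
  have hjl : |dt (Yf δ d j) v| ≤ CG * |dt (Yf δ d l) v| := K.rg' hv (by omega) hl h1 h0
  rcases le_total κ |Yf δ d (l + 1) v| with h4 | h4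
  · have e3 : ∀ k ∈ Finset.range (d (l + 1)), |dt (Yf δ d j) v| *
        |sl (Tf δ d (l + 1) (k + 1)) v - sl (Tf δ d (l + 1) k) v| ≤
        C1 * (CG * CT) / cX / 2 ^ ((l + 1) / 2) * (1 / κ) ^ k := by
      intro k hk
      rw [Finset.mem_range] at hk
      have b1 := hT k (by omega)
      have b2 := hT (k + 1) (by omega)
      have b0 := hT 0 (by omega)
      have b3 : 0 < |dt (Tf δ d (l + 1) k) v| :=
        abs_pos.2 (K.neT d K.hd (l + 1) k (by omega) v hv b1)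
      have b4 : |dt (Yf δ d j) v| ≤ CG * CT * |dt (Tf δ d (l + 1) k) v| := by
        have b5 := K.rgt (l + 1) 0 k (Nat.zero_le _) v hU h4 b0 b1
        rw [Tf_zero] at b5
        have b6 : |dt (Yf δ d l) v| ≤ |dt (Yf δ d l) v| * κ ^ (k - 0) :=
          le_mul_of_one_le_right (abs_nonneg _) (one_le_pow₀ hκ.le)
        calc |dt (Yf δ d j) v| ≤ CG * |dt (Yf δ d l) v| := hjl
          _ ≤ CG * (CT * |dt (Tf δ d (l + 1) k) v|) :=
            mul_le_mul_of_nonneg_left (b6.trans b5) hCG.le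
          _ = CG * CT * |dt (Tf δ d (l + 1) k) v| := by ring
      have b7 : 0 < cX * κ ^ (k + 1) * 2 ^ ((l + 1) / 2) := by positivity
      refine (aux (abs_nonneg _) b3 b7 (K.run (l + 1) (k + 1) (by omega) (by omega) v hU h4 b2)
        (abs_nonneg _) (K.prT d K.hd (l + 1) k (by omega) v hv b1 b2) b4 (by positivity)).trans ?_
      have b8 : C1 * (CG * CT) / (cX * κ ^ (k + 1) * 2 ^ ((l + 1) / 2)) =
          C1 * (CG * CT) / cX / 2 ^ ((l + 1) / 2) * (1 / κ) ^ (k + 1) := by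
        rw [one_div, inv_pow]
        field_simp
      rw [b8]
      refine mul_le_mul_of_nonneg_left ?_ (by positivity)
      exact pow_le_pow_of_le_one hx0 hx1.le (Nat.le_succ k)
    refine (Finset.sum_le_sum e3).trans ?_
    rw [← Finset.mul_sum]
    have e4 := geo hx0 hx1 (d (l + 1))
    calc C1 * (CG * CT) / cX / 2 ^ ((l + 1) / 2) * ∑ k ∈ Finset.range (d (l + 1)), (1 / κ) ^ k
        ≤ C1 * (CG * CT) / cX / 2 ^ ((l + 1) / 2) * (1 / (1 - 1 / κ)) :=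
          mul_le_mul_of_nonneg_left e4 (by positivity)
      _ = (C1 * (CG * CT) / cX * (1 / (1 - 1 / κ))) / 2 ^ ((l + 1) / 2) := by ring
      _ ≤ _ := by
          apply div_le_div_of_nonneg_right _ hpow.le
          have : 0 ≤ (N : ℝ) * (C1 * (CG + CG * CR) / c0) := by positivity
          linarith
  · have hN : d (l + 1) ≤ N :=
      K.win (l + 1) v hU h3 h4 (hT 0 (Nat.zero_le _)) (hT _ le_rfl)
    have hjl1 : |dt (Yf δ d j) v| ≤ CG * |dt (Yf δ d (l + 1)) v| :=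
      K.rg' hv (by omega) (by omega) h1 h4
    have e3 : ∀ k ∈ Finset.range (d (l + 1)), |dt (Yf δ d j) v| *
        |sl (Tf δ d (l + 1) (k + 1)) v - sl (Tf δ d (l + 1) k) v| ≤
        C1 * (CG + CG * CR) / c0 / 2 ^ ((l + 1) / 2) := by
      intro k hk
      rw [Finset.mem_range] at hk
      have b1 := hT k (by omega)
      have b2 := hT (k + 1) (by omega)
      have b3 : 0 < |dt (Tf δ d (l + 1) k) v| :=
        abs_pos.2 (K.neT d K.hd (l + 1) k (by omega) v hv b1)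
      have b4 : |dt (Yf δ d j) v| ≤ (CG + CG * CR) * |dt (Tf δ d (l + 1) k) v| := by
        rcases Nat.eq_zero_or_pos k with rfl | hk0
        · rw [Tf_zero]
          rw [add_mul]
          have : 0 ≤ CG * CR * |dt (Yf δ d l) v| := by positivity
          linarith
        · have b5 := K.rev (l + 1) k (by omega) hk0 v hU b1
          calc |dt (Yf δ d j) v| ≤ CG * |dt (Yf δ d (l + 1)) v| := hjl1
            _ ≤ CG * (CR * |dt (Tf δ d (l + 1) k) v|) := mul_le_mul_of_nonneg_left b5 hCG.le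
            _ ≤ (CG + CG * CR) * |dt (Tf δ d (l + 1) k) v| := by
              have : 0 ≤ CG * |dt (Tf δ d (l + 1) k) v| := by positivity
              nlinarith
      have b7 : 0 < c0 * 2 ^ ((l + 1 + 1) / 2) := by positivity
      refine (aux (abs_nonneg _) b3 b7 (K.loT d K.hd (l + 1) (k + 1) (by omega) (by omega) v hv b2)
        (abs_nonneg _) (K.prT d K.hd (l + 1) k (by omega) v hv b1 b2) b4 (by positivity)).trans ?_
      rw [div_div]
      refine div_le_div_of_nonneg_left (by positivity) (by positivity) ?_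
      exact mul_le_mul_of_nonneg_left (pow_le_pow_right₀ (by norm_num) (by omega)) hc0.le
    refine (Finset.sum_le_sum e3).trans ?_
    rw [Finset.sum_const, Finset.card_range, nsmul_eq_mul]
    have e5 : (d (l + 1) : ℝ) ≤ N := by exact_mod_cast hN
    calc (d (l + 1) : ℝ) * (C1 * (CG + CG * CR) / c0 / 2 ^ ((l + 1) / 2))
        ≤ N * (C1 * (CG + CG * CR) / c0 / 2 ^ ((l + 1) / 2)) :=
          mul_le_mul_of_nonneg_right e5 (by positivity)
      _ = (N * (C1 * (CG + CG * CR) / c0)) / 2 ^ ((l + 1) / 2) := by ring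
      _ ≤ _ := by
          apply div_le_div_of_nonneg_right _ hpow.le
          have h1k : 0 < 1 - 1 / κ := by linarith
          have : 0 ≤ C1 * (CG * CT) / cX * (1 / (1 - 1 / κ)) := by positivity
          linarith

end Kst

/-- the constant for `path` -/
noncomputable def BB (κ C1 c0 CG CR CT cX : ℝ) (N : ℕ) : ℝ :=
  C1 * CG / c0 + (C1 * (CG * CT) / cX * (1 / (1 - 1 / κ)) + N * (C1 * (CG + CG * CR) / c0))

namespace Kst

variable {δ κ r : ℝ} {d : ℕ → ℕ} {C1 c0 CG CR CT cX : ℝ} {N : ℕ}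
  (K : Kst δ κ r d C1 c0 CG CR CT cX N) {v : ℝ × ℝ} (hv : |v.1| ≤ r)

include K

theorem BB_parts : 0 ≤ C1 * CG / c0 ∧
    0 ≤ C1 * (CG * CT) / cX * (1 / (1 - 1 / κ)) + N * (C1 * (CG + CG * CR) / c0) := by
  have hC1 := K.C1p
  have hc0 := K.c0p
  have hCG := K.CGp
  have hCR := K.CRp
  have hCT := K.CTp
  have hcX := K.cXp
  have hκ := K.hκ
  have hκ0 : 0 < κ := by linarith
  have hx1 : 1 / κ < 1 := by rw [div_lt_one hκ0]; exact hκ
  have h1k : 0 < 1 - 1 / κ := by linarith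
  exact ⟨by positivity, by positivity⟩

theorem BB_nonneg : 0 ≤ BB κ C1 c0 CG CR CT cX N := by
  obtain ⟨h1, h2⟩ := K.BB_parts
  unfold BB
  linarith

include hv

theorem path (hA : ∀ m, |Yf δ d m v| ≤ 1 ∨ |Yf δ d (m + 1) v| ≤ 1)
    (hT : ∀ l, 1 < |Yf δ d l v| → ∀ i ≤ d l, |Tf δ d l i v| ≤ 1) {j : ℕ} (hj : 2 ≤ j)
    (h1 : |Yf δ d j v| ≤ 1) : ∀ M, j ≤ M → |Yf δ d M v| ≤ 1 →
      |dt (Yf δ d j) v| * |sl (Yf δ d M) v - sl (Yf δ d j) v| ≤
        BB κ C1 c0 CG CR CT cX N * (8 - 8 * (3 / 4) ^ M) := by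
  have hB := K.BB_nonneg
  obtain ⟨hB1, hB2⟩ := K.BB_parts
  have hc0 := K.c0p
  have hκ := K.hκ
  have tri : ∀ a b c : ℝ, |dt (Yf δ d j) v| * |a - c| ≤
      |dt (Yf δ d j) v| * |a - b| + |dt (Yf δ d j) v| * |b - c| := by
    intro a b c
    rw [← mul_add]
    exact mul_le_mul_of_nonneg_left (abs_sub_le a b c) (abs_nonneg _)
  intro M
  induction M using Nat.strong_induction_on with
  | _ M ih =>
    intro hM hY
    rcases eq_or_lt_of_le hM with rfl | hM'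
    · rw [sub_self, abs_zero, mul_zero]
      refine mul_nonneg hB ?_
      have : (3 / 4 : ℝ) ^ j ≤ 1 := pow_le_one₀ (by norm_num) (by norm_num)
      linarith
    · obtain ⟨l, rfl⟩ : ∃ l, M = l + 1 := ⟨M - 1, by omega⟩
      by_cases hg : |Yf δ d l v| ≤ 1
      · have h2 := ih l (by omega) (by omega) hg
        have h3 := K.step1 hv hj (by omega : j ≤ l) (h1.trans hκ.le) (hg.trans hκ.le)
          (hY.trans hκ.le)
        have h4 := tri (sl (Yf δ d (l + 1)) v) (sl (Yf δ d l) v) (sl (Yf δ d j) v)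
        have h5 : C1 * CG / (c0 * 2 ^ ((l + 1) / 2)) ≤
            BB κ C1 c0 CG CR CT cX N * (2 * (3 / 4) ^ (l + 1)) := by
          have h6 : C1 * CG / (c0 * 2 ^ ((l + 1) / 2)) =
              C1 * CG / c0 * (1 / 2 ^ ((l + 1) / 2)) := by field_simp
          rw [h6]
          refine mul_le_mul ?_ (two_pow_half _) (by positivity) hB
          unfold BB
          linarith
        have h7 : (0 : ℝ) ≤ (3 / 4) ^ l := by positivity
        rw [pow_succ] at h5 ⊢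
        nlinarith [mul_nonneg hB h7]
      · have hl : j ≠ l := by
          rintro rfl
          exact hg h1
        obtain ⟨i, rfl⟩ : ∃ i, l = i + 1 := ⟨l - 1, by omega⟩
        have hg' : |Yf δ d i v| ≤ 1 := (hA i).resolve_right hg
        have h2 := ih i (by omega) (by omega) hg'
        have h3 := K.step2 hv hj (by omega : j ≤ i) (h1.trans hκ.le) (not_le.1 hg)
          (fun k hk => (hT _ (not_le.1 hg) k hk).trans hκ.le)
        have h4 := tri (sl (Yf δ d (i + 1 + 1)) v) (sl (Yf δ d i) v) (sl (Yf δ d j) v)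
        have h5 : (C1 * (CG * CT) / cX * (1 / (1 - 1 / κ)) + N * (C1 * (CG + CG * CR) / c0)) /
            2 ^ ((i + 1) / 2) ≤ BB κ C1 c0 CG CR CT cX N * (2 * (3 / 4) ^ (i + 1)) := by
          rw [div_eq_mul_one_div]
          refine mul_le_mul ?_ (two_pow_half _) (by positivity) hB
          unfold BB
          linarith
        have h7 : (0 : ℝ) ≤ (3 / 4) ^ i := by positivity
        rw [pow_succ] at h5
        rw [pow_succ, pow_succ]
        have h8 := h3.trans h5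
        nlinarith [mul_nonneg hB h7]

end Kst

/-! ### the leaf direction -/

theorem lim_pow {a C ε : ℝ} (ha : 0 ≤ a) (hC : 0 ≤ C) (hε : 0 < ε) :
    ∃ n : ℕ, ∀ M, n ≤ M → a * (C / 2 ^ (M / 2)) ≤ ε := by
  obtain ⟨n, hn⟩ := pow_unbounded_of_one_lt (a * C / ε) (by norm_num : (1 : ℝ) < 2)
  refine ⟨2 * n, fun M hM => ?_⟩
  have h1 : (2 : ℝ) ^ n ≤ 2 ^ (M / 2) := pow_le_pow_right₀ (by norm_num) (by omega)
  have h2 : (0 : ℝ) < 2 ^ (M / 2) := by positivity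
  rw [← mul_div_assoc, div_le_iff₀ h2]
  have h3 : a * C ≤ ε * 2 ^ n := by
    rw [div_lt_iff₀ hε] at hn
    linarith
  exact h3.trans (mul_le_mul_of_nonneg_left h1 hε.le)

theorem good_inf {Y : ℕ → ℝ} (hA : ∀ m, |Y m| ≤ 1 ∨ |Y (m + 1)| ≤ 1) (n : ℕ) :
    ∃ M, n ≤ M ∧ |Y M| ≤ 1 := by
  rcases hA n with h | h
  · exact ⟨n, le_rfl, h⟩
  · exact ⟨n + 1, Nat.le_succ n, h⟩

namespace Kst

variable {δ κ r : ℝ} {d : ℕ → ℕ} {C1 c0 CG CR CT cX : ℝ} {N : ℕ}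
  (K : Kst δ κ r d C1 c0 CG CR CT cX N) {v : ℝ × ℝ} (hv : |v.1| ≤ r)

include K hv

/-- part (a) -/
theorem parta {s CF : ℝ} (hCF : 0 ≤ CF)
    (hF : ∀ M, 3 ≤ M → |Yf δ d M v| ≤ 1 → |s - sl (Yf δ d M) v| * 2 ^ (M / 2) ≤ CF)
    (hA : ∀ m, |Yf δ d m v| ≤ 1 ∨ |Yf δ d (m + 1) v| ≤ 1)
    (hT : ∀ l, 1 < |Yf δ d l v| → ∀ i ≤ d l, |Tf δ d l i v| ≤ 1) {j : ℕ} (hj : 2 ≤ j)
    (h1 : |Yf δ d j v| ≤ 1) :
    |dt (Yf δ d j) v| * |s - sl (Yf δ d j) v| ≤ 8 * BB κ C1 c0 CG CR CT cX N := by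
  refine le_of_forall_pos_le_add fun ε hε => ?_
  obtain ⟨n, hn⟩ := lim_pow (abs_nonneg (dt (Yf δ d j) v)) hCF hε
  obtain ⟨M, hM, hY⟩ := good_inf (Y := fun m => Yf δ d m v) hA (n + j + 3)
  have h2 := K.path hv hA hT hj h1 M (by omega) hY
  have h3 := hF M (by omega) hY
  have h4 : |s - sl (Yf δ d M) v| ≤ CF / 2 ^ (M / 2) := by
    rw [le_div_iff₀ (by positivity)]
    exact h3
  have h5 := hn M (by omega)
  have h6 : |dt (Yf δ d j) v| * |s - sl (Yf δ d M) v| ≤ ε :=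
    (mul_le_mul_of_nonneg_left h4 (abs_nonneg _)).trans h5
  have h7 : |s - sl (Yf δ d j) v| ≤ |s - sl (Yf δ d M) v| +
      |sl (Yf δ d M) v - sl (Yf δ d j) v| := abs_sub_le _ _ _
  have h8 := mul_le_mul_of_nonneg_left h7 (abs_nonneg (dt (Yf δ d j) v))
  have hB := K.BB_nonneg
  have h9 : (0 : ℝ) ≤ (3 / 4) ^ M := by positivity
  nlinarith [mul_nonneg hB h9]

/-- part (b) -/
theorem partb {s A : ℝ} {j : ℕ} (hj : 2 ≤ j) (h1 : |Yf δ d j v| ≤ κ)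
    (h2 : |Yf δ d (j + 1) v| ≤ κ) (hA0 : 0 ≤ A)
    (ha : |dt (Yf δ d (j + 1)) v| * |s - sl (Yf δ d (j + 1)) v| ≤ A) :
    |dt (Yf δ d j) v| * |s - sl (Yf δ d j) v| ≤ CR * A + C1 / c0 := by
  have hU := mem_U K.hr hv
  have hC1 := K.C1p
  have hc0 := K.c0p
  have hCR := K.CRp
  have h3 : |dt (Yf δ d j) v| ≤ CR * |dt (Yf δ d (j + 1)) v| := by
    have := K.rev j (d j) (by omega) (K.hd j) v hU (by rw [Tf_last]; exact h2)
    rwa [Tf_last] at this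
  have h7 : |s - sl (Yf δ d j) v| ≤ |s - sl (Yf δ d (j + 1)) v| +
      |sl (Yf δ d (j + 1)) v - sl (Yf δ d j) v| := abs_sub_le _ _ _
  have h8 := mul_le_mul_of_nonneg_left h7 (abs_nonneg (dt (Yf δ d j) v))
  have h4 : |dt (Yf δ d j) v| * |s - sl (Yf δ d (j + 1)) v| ≤ CR * A :=
    calc |dt (Yf δ d j) v| * |s - sl (Yf δ d (j + 1)) v|
        ≤ CR * |dt (Yf δ d (j + 1)) v| * |s - sl (Yf δ d (j + 1)) v| :=
          mul_le_mul_of_nonneg_right h3 (abs_nonneg _)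
      _ = CR * (|dt (Yf δ d (j + 1)) v| * |s - sl (Yf δ d (j + 1)) v|) := by ring
      _ ≤ CR * A := mul_le_mul_of_nonneg_left ha hCR.le
  have h5 : |dt (Yf δ d j) v| * |sl (Yf δ d (j + 1)) v - sl (Yf δ d j) v| ≤ C1 / c0 := by
    have h9 := aux (abs_nonneg (dt (Yf δ d j) v)) (abs_pos.2 (K.neY d K.hd j hj v hv h1)) hc0
      (?_ : c0 ≤ |dt (Yf δ d (j + 1)) v|)
      (abs_nonneg _) (K.prY d K.hd j hj v hv h1 h2) (C2 := 1) (by rw [one_mul]) zero_le_one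
    · rwa [mul_one] at h9
    · refine le_trans ?_ (K.loY d K.hd (j + 1) (by omega) v hv h2)
      exact le_mul_of_one_le_right hc0.le (one_le_two_pow _)
  rw [mul_add] at h8
  linarith

/-- part (d) -/
theorem partd {s A κ2 CT2 : ℝ} {j k : ℕ} (hκ2 : 1 < κ2) (hCT2 : 0 < CT2) (hj : 3 ≤ j)
    (hk : k ≤ d j) (hT : ∀ i ≤ d j, |Tf δ d j i v| ≤ κ)
    (rgt : ∀ k l, k ≤ l → |Tf δ d j k v| ≤ κ → |Tf δ d j l v| ≤ κ →
      |dt (Tf δ d j k) v| * κ2 ^ (l - k) ≤ CT2 * |dt (Tf δ d j l) v|) (hA0 : 0 ≤ A)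
    (ha : |dt (Yf δ d (j + 1)) v| * |s - sl (Yf δ d (j + 1)) v| ≤ A) :
    |dt (Tf δ d j k) v| * |s - sl (Tf δ d j k) v| ≤
      CT2 * A + C1 * CT2 / c0 * (1 / (1 - 1 / κ2)) := by
  have hU := mem_U K.hr hv
  have hC1 := K.C1p
  have hc0 := K.c0p
  have hκ20 : 0 < κ2 := by linarith
  have hx0 : 0 ≤ 1 / κ2 := by positivity
  have hx1 : 1 / κ2 < 1 := by rw [div_lt_one hκ20]; exact hκ2
  have h3 : |dt (Tf δ d j k) v| ≤ CT2 * |dt (Yf δ d (j + 1)) v| := by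
    have := rgt k (d j) hk (hT k hk) (hT _ le_rfl)
    rw [Tf_last] at this
    exact le_trans (le_mul_of_one_le_right (abs_nonneg _) (one_le_pow₀ hκ2.le)) this
  have h7 : |s - sl (Tf δ d j k) v| ≤ |s - sl (Yf δ d (j + 1)) v| +
      |sl (Yf δ d (j + 1)) v - sl (Tf δ d j k) v| := abs_sub_le _ _ _
  have h8 := mul_le_mul_of_nonneg_left h7 (abs_nonneg (dt (Tf δ d j k) v))
  have h4 : |dt (Tf δ d j k) v| * |s - sl (Yf δ d (j + 1)) v| ≤ CT2 * A :=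
    calc |dt (Tf δ d j k) v| * |s - sl (Yf δ d (j + 1)) v|
        ≤ CT2 * |dt (Yf δ d (j + 1)) v| * |s - sl (Yf δ d (j + 1)) v| :=
          mul_le_mul_of_nonneg_right h3 (abs_nonneg _)
      _ = CT2 * (|dt (Yf δ d (j + 1)) v| * |s - sl (Yf δ d (j + 1)) v|) := by ring
      _ ≤ CT2 * A := mul_le_mul_of_nonneg_left ha hCT2.le
  have e1 : sl (Yf δ d (j + 1)) v - sl (Tf δ d j k) v =
      ∑ n ∈ Finset.range (d j - k),
        (sl (Tf δ d j (k + n + 1)) v - sl (Tf δ d j (k + n)) v) := by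
    have := Finset.sum_range_sub (fun n => sl (Tf δ d j (k + n)) v) (d j - k)
    simp only [add_zero, ← add_assoc] at this
    rw [this, Nat.add_sub_cancel' hk, Tf_last]
  have e2 : |dt (Tf δ d j k) v| * |sl (Yf δ d (j + 1)) v - sl (Tf δ d j k) v| ≤
      ∑ n ∈ Finset.range (d j - k), |dt (Tf δ d j k) v| *
        |sl (Tf δ d j (k + n + 1)) v - sl (Tf δ d j (k + n)) v| := by
    rw [e1, ← Finset.mul_sum]
    exact mul_le_mul_of_nonneg_left (Finset.abs_sum_le_sum_abs _ _) (abs_nonneg _)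
  have e3 : ∀ n ∈ Finset.range (d j - k), |dt (Tf δ d j k) v| *
      |sl (Tf δ d j (k + n + 1)) v - sl (Tf δ d j (k + n)) v| ≤
      C1 * CT2 / c0 * (1 / κ2) ^ n := by
    intro n hn
    rw [Finset.mem_range] at hn
    have b1 := hT (k + n) (by omega)
    have b2 := hT (k + n + 1) (by omega)
    have b3 : 0 < |dt (Tf δ d j (k + n)) v| :=
      abs_pos.2 (K.neT d K.hd j (k + n) (by omega) v hv b1)
    have b4 : |dt (Tf δ d j k) v| ≤ CT2 * (1 / κ2) ^ n * |dt (Tf δ d j (k + n)) v| := by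
      have b5 := rgt k (k + n) (by omega) (hT k hk) b1
      rw [Nat.add_sub_cancel_left] at b5
      have b6 : 0 < κ2 ^ n := by positivity
      have b7 : |dt (Tf δ d j k) v| ≤ CT2 * |dt (Tf δ d j (k + n)) v| / κ2 ^ n := by
        rw [le_div_iff₀ b6]
        exact b5
      refine b7.trans (le_of_eq ?_)
      rw [one_div, inv_pow]
      field_simp
    have b7 : c0 ≤ |dt (Tf δ d j (k + n + 1)) v| := by
      refine le_trans ?_ (K.loT d K.hd j (k + n + 1) hj (by omega) v hv b2)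
      exact le_mul_of_one_le_right hc0.le (one_le_two_pow _)
    refine (aux (abs_nonneg _) b3 hc0 b7 (abs_nonneg _)
      (K.prT d K.hd j (k + n) hj v hv b1 b2) b4 (by positivity)).trans (le_of_eq ?_)
    ring
  have h5 : |dt (Tf δ d j k) v| * |sl (Yf δ d (j + 1)) v - sl (Tf δ d j k) v| ≤
      C1 * CT2 / c0 * (1 / (1 - 1 / κ2)) := by
    refine e2.trans ((Finset.sum_le_sum e3).trans ?_)
    rw [← Finset.mul_sum]
    exact mul_le_mul_of_nonneg_left (geo hx0 hx1 _) (by positivity)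
  rw [mul_add] at h8
  linarith

end Kst

/-! ### tangent vectors -/

theorem dRk_y (k : ℕ) (p u : P3) : (dRk k p u).y = u.y := by
  induction k with
  | zero => rfl
  | succ k ih => exact ih

theorem dorb_succ_z (d : ℕ → ℕ) (p u : P3) (m : ℕ) :
    (dorb d p u (m + 1)).z = (dorb d p u m).y := by
  have : (dorb d p u (m + 1)).z = (dRk (d m) (orb d p m) (dorb d p u m)).y := rfl
  rw [this, dRk_y]

theorem dorb_succ_y (d : ℕ → ℕ) (p u : P3) (m : ℕ) :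
    (dorb d p u (m + 1)).y = (dRk (d m) (orb d p m) (dorb d p u m)).z := rfl

theorem dirder (hC : SCoord) (hDt : SDt) (δ : ℝ) (d : ℕ → ℕ) {v : ℝ × ℝ} (hv : v ∈ U) (s : ℝ) :
    ∃ u0 : P3, ∀ m, (dorb d (ze δ v) u0 m).y = dz (Yf δ d m) v + s * dt (Yf δ d m) v ∧
      Tan (orb d (ze δ v) m) (dorb d (ze δ v) u0 m) := by
  have hnh : U ∈ 𝓝 v := isOpen_U.mem_nhds hv
  obtain ⟨hS, -, hsm, -⟩ := hC δ
  set γ : ℝ → ℝ × ℝ := fun t => v + t • ((1, s) : ℝ × ℝ) with hγ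
  have hγ0 : γ 0 = v := by simp [hγ]
  have hγd : HasDerivAt γ (1, s) 0 := by
    have h1 : HasDerivAt (fun t : ℝ => t • ((1, s) : ℝ × ℝ)) ((1 : ℝ) • ((1, s) : ℝ × ℝ)) 0 :=
      (hasDerivAt_id (0 : ℝ)).smul_const _
    rw [one_smul] at h1
    exact h1.const_add v
  have hγc : ∀ᶠ t in 𝓝 (0 : ℝ), γ t ∈ U := by
    have h1 : ContinuousAt γ 0 := hγd.continuousAt
    exact h1.eventually_mem (by rw [hγ0]; exact hnh)
  have h2 : HasFDerivAt (fun v => toL (ze δ v)) (fderiv ℝ (fun v => toL (ze δ v)) v) (γ 0) := by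
    rw [hγ0]
    exact ((hsm.contDiffAt hnh).differentiableAt (by simp)).hasFDerivAt
  have h3 := h2.comp_hasDerivAt (0 : ℝ) hγd
  set u0 : P3 := ofL (fderiv ℝ (fun v => toL (ze δ v)) v (1, s)) with hu0
  have h4 : HasDer (fun t => ze δ (γ t)) u0 0 := by
    refine ⟨?_, ?_, ?_⟩
    · exact (hasFDerivAt_fst.comp_hasDerivAt (0 : ℝ) h3 :)
    · exact ((hasFDerivAt_fst.comp_hasDerivAt (0 : ℝ)
        (hasFDerivAt_snd.comp_hasDerivAt (0 : ℝ) h3)) :)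
    · exact ((hasFDerivAt_snd.comp_hasDerivAt (0 : ℝ)
        (hasFDerivAt_snd.comp_hasDerivAt (0 : ℝ) h3)) :)
  refine ⟨u0, fun m => ?_⟩
  have h5 := h4.orb d m
  simp only [hγ0] at h5
  constructor
  · have h6 : HasDerivAt (fun t => Yf δ d m (γ t)) (dorb d (ze δ v) u0 m).y 0 := h5.2.1
    have h7 : HasFDerivAt (Yf δ d m) (fderiv ℝ (Yf δ d m) v) (γ 0) := by
      rw [hγ0]
      exact ((((hDt δ d m).1).contDiffAt hnh).differentiableAt (by simp)).hasFDerivAt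
    have h8 : HasDerivAt (fun t => Yf δ d m (γ t)) (fderiv ℝ (Yf δ d m) v (1, s)) 0 :=
      h7.comp_hasDerivAt (0 : ℝ) hγd
    rw [h6.unique h8]
    have h9 : ((1, s) : ℝ × ℝ) = (1, 0) + s • (0, 1) := by simp
    rw [h9, map_add, map_smul]
    rfl
  · obtain ⟨hz, hy, hx⟩ := h5
    have h6 : HasDerivAt (fun t => (orb d (ze δ (γ t)) m).x ^ 2 + (orb d (ze δ (γ t)) m).y ^ 2 +
        (orb d (ze δ (γ t)) m).z ^ 2 -
        2 * (orb d (ze δ (γ t)) m).x * (orb d (ze δ (γ t)) m).y * (orb d (ze δ (γ t)) m).z)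
        _ 0 := (((hx.fun_pow 2).add (hy.fun_pow 2)).add (hz.fun_pow 2)).sub
          (((hx.const_mul 2).mul hy).mul hz)
    have h7 : (fun t => (orb d (ze δ (γ t)) m).x ^ 2 + (orb d (ze δ (γ t)) m).y ^ 2 +
        (orb d (ze δ (γ t)) m).z ^ 2 -
        2 * (orb d (ze δ (γ t)) m).x * (orb d (ze δ (γ t)) m).y * (orb d (ze δ (γ t)) m).z)
        =ᶠ[𝓝 0] fun _ => 1 + δ ^ 2 := by
      filter_upwards [hγc] with t ht
      exact (hS _ ht).orb d m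
    have h8 := h6.congr_of_eventuallyEq h7.symm
    have h9 := h8.unique (hasDerivAt_const (0 : ℝ) (1 + δ ^ 2))
    simp only [hγ0, Pi.mul_apply] at h9
    unfold Tan gA gB gX
    norm_num at h9
    linear_combination h9 / 2

/-! ### compactness -/

theorem cmpct {F : ℝ × ℝ → ℝ} {r : ℝ} (hr : r < 1) (hF : ContinuousOn F U)
    (hp : ∀ z ϑ, |z| < 1 → F (z, ϑ + 2 * π) = F (z, ϑ)) :
    ∃ C : ℝ, 0 ≤ C ∧ ∀ v : ℝ × ℝ, |v.1| ≤ r → |F v| ≤ C := by
  have hK : IsCompact (Icc (-r) r ×ˢ Icc (0 : ℝ) (2 * π)) := isCompact_Icc.prod isCompact_Icc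
  have hsub : Icc (-r) r ×ˢ Icc (0 : ℝ) (2 * π) ⊆ U := by
    rintro ⟨a, b⟩ ⟨h1, -⟩
    exact lt_of_le_of_lt (abs_le.2 h1) hr
  obtain ⟨C, hC⟩ := hK.exists_bound_of_continuousOn (hF.mono hsub)
  refine ⟨max C 0, le_max_right _ _, fun v hv => ?_⟩
  have hv1 : |v.1| < 1 := lt_of_le_of_lt hv hr
  have hper : Function.Periodic (fun ϑ => F (v.1, ϑ)) (2 * π) := fun ϑ => hp v.1 ϑ hv1
  obtain ⟨w, hw, hw'⟩ := hper.exists_mem_Ico₀ (by positivity) v.2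
  have h1 : F v = F (v.1, w) := hw'
  rw [h1, ← Real.norm_eq_abs]
  refine (hC (v.1, w) ⟨abs_le.1 hv, hw.1, hw.2.le⟩).trans (le_max_left _ _)

theorem fderiv_per {f : ℝ × ℝ → ℝ} (h : ∀ z ϑ, f (z, ϑ + 2 * π) = f (z, ϑ)) (z ϑ : ℝ) :
    fderiv ℝ f (z, ϑ + 2 * π) = fderiv ℝ f (z, ϑ) := by
  have h1 : (fun v : ℝ × ℝ => f (v + (0, 2 * π))) = f := by
    funext v
    have : v + (0, 2 * π) = (v.1, v.2 + 2 * π) := by
      ext <;> simp
    rw [this, h]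
  have h2 := fderiv_comp_add_right (𝕜 := ℝ) (f := f) (x := ((z, ϑ) : ℝ × ℝ)) (0, 2 * π)
  rw [h1] at h2
  rw [h2]
  congr 1
  ext <;> simp

theorem small (hDt : SDt) {δ r : ℝ} (hr : r < 1) {g : ℝ × ℝ → ℝ} (hg : ContinuousOn g U)
    (hgp : ∀ z ϑ, g (z, ϑ + 2 * π) = g (z, ϑ)) (d : ℕ → ℕ) (m : ℕ) :
    ∃ C : ℝ, 0 ≤ C ∧ ∀ v : ℝ × ℝ, |v.1| ≤ r →
      |dz (Yf δ d m) v + g v * dt (Yf δ d m) v| ≤ C := by
  obtain ⟨h1, h2, -⟩ := hDt δ d m
  have h3 : ContinuousOn (fderiv ℝ (Yf δ d m)) U :=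
    h1.continuousOn_fderiv_of_isOpen isOpen_U (by simp)
  refine cmpct hr ?_ ?_
  · unfold dz dt
    exact (h3.clm_apply continuousOn_const).add (hg.mul (h3.clm_apply continuousOn_const))
  · intro z ϑ hz
    unfold dz dt
    rw [fderiv_per h2, hgp]

/-! ### the theorem -/

theorem gX_sq {δ : ℝ} {p : P3} (h : OnS δ p) : gX p ^ 2 = δ ^ 2 + (1 - p.y ^ 2) * (1 - p.z ^ 2) := by
  unfold OnS at h
  unfold gX
  linear_combination h

theorem gX_le {δ : ℝ} {p : P3} (h : OnS δ p) (h1 : (1 - p.y ^ 2) * (1 - p.z ^ 2) ≤ 0) :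
    |gX p| ≤ |δ| := by
  rw [← sq_le_sq, gX_sq h]
  linarith

theorem sq_le_one_of {x : ℝ} (h : |x| ≤ 1) : 0 ≤ 1 - x ^ 2 := by
  have := (sq_le_one_iff_abs_le_one x).2 h
  linarith

theorem one_le_sq_of {x : ℝ} (h : 1 < |x|) : 1 - x ^ 2 ≤ 0 := by
  have := (one_lt_sq_iff_one_lt_abs x).2 h
  linarith

/-- **SLip** -/
theorem tSLip (hField : SField) (hPair : SPair) (hLag : SLag) (hSlope : SSlope) (hLow : SLow)
    (hRun : SRun) (hRev : SRev) (hBr : SBr) (hWin : SWin) (hDt : SDt) (hCoord : SCoord)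
    (hRG : SRG) (hRGT : SRGT) (hQ : SQ) : SLip := by
  intro δ κ κ2 r d θ hδ hκ hκ' hκ2 hr hd hcut
  have hκ0 : 0 ≤ κ := by linarith
  obtain ⟨C1, c0, hCst⟩ := exists_Cst hSlope hLow hLag hPair hBr hDt hδ hκ.le hκ' hr
  obtain ⟨CG, hCG, HG⟩ := hRG δ κ hδ hκ hκ'
  obtain ⟨CR, hCR, HR⟩ := hRev δ κ hδ hκ0 hκ'
  obtain ⟨CT, hCT, HT⟩ := hRGT δ κ κ hδ hκ.le hκ' hκ
  obtain ⟨CT2, hCT2, HT2⟩ := hRGT δ κ κ2 hδ hκ.le hκ' hκ2
  obtain ⟨cX, hcX, HX⟩ := hRun δ κ hδ hκ hκ'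
  obtain ⟨N, HN⟩ := hWin δ κ hδ hκ.le hκ'
  obtain ⟨N1, HN1⟩ := hWin δ 1 hδ le_rfl (one_lt_cc hδ)
  obtain ⟨cQ, hcQ, HQ⟩ := hQ δ κ hδ hκ0 hκ'
  obtain ⟨hsg1, hsg2, hsg3⟩ := hField δ κ d θ hδ hκ hκ' hd hcut
  obtain ⟨CF, hCF, HF⟩ := hsg3 r hr
  obtain ⟨hS, -⟩ := hCoord δ
  have K : Kst δ κ r d C1 c0 CG CR CT cX N :=
    { toCst := hCst
      hd := hd
      hr := hr
      hκ := hκ
      CGp := hCG
      CRp := hCR
      CTp := hCT
      cXp := hcX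
      rg := fun m M hm hM v hv => HG d hd m M hm hM v hv
      rev := fun j k hj hk v hv => HR d hd j k hj hk v hv
      rgt := fun j k l hkl v hv => HT d hd j k l hkl v hv
      run := fun j k hj hk v hv => HX d hd j k hj hk v hv
      win := fun j v hv h1 h2 h3 h4 => by
        have := (HN (orb d (ze δ v) j) 0 (d j) ((hS v hv).orb d j) h1 (Nat.zero_le _) h3 h4).2 h2
        omega }
  -- compactness constants
  have hsm : ∀ d' m, ∃ C : ℝ, 0 ≤ C ∧ ∀ v : ℝ × ℝ, |v.1| ≤ r →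
      |dz (Yf δ d' m) v + sg θ δ d v * dt (Yf δ d' m) v| ≤ C :=
    fun d' m => small hDt hr hsg1.continuousOn hsg2 d' m
  choose Cm hCm0 hCm using hsm
  set S1 : ℝ := ∑ j ∈ Finset.range 3, Cm d j with hS1
  set S2 : ℝ := ∑ j ∈ Finset.range 3, ∑ k ∈ Finset.range (d j + 1),
    Cm (Function.update d j k) (j + 1) with hS2
  have hS1le : ∀ j < 3, Cm d j ≤ S1 := fun j hj =>
    Finset.single_le_sum (f := fun j => Cm d j) (fun i _ => hCm0 d i) (Finset.mem_range.2 hj)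
  have hS2le : ∀ j < 3, ∀ k ≤ d j, Cm (Function.update d j k) (j + 1) ≤ S2 := by
    intro j hj k hk
    refine le_trans ?_ (Finset.single_le_sum
      (f := fun j => ∑ k ∈ Finset.range (d j + 1), Cm (Function.update d j k) (j + 1))
      (fun i _ => Finset.sum_nonneg fun k _ => hCm0 _ _) (Finset.mem_range.2 hj))
    exact Finset.single_le_sum (f := fun k => Cm (Function.update d j k) (j + 1))
      (fun k _ => hCm0 _ _) (Finset.mem_range.2 (by omega))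
  have hS1p : 0 ≤ S1 := Finset.sum_nonneg fun i _ => hCm0 _ _
  have hS2p : 0 ≤ S2 := Finset.sum_nonneg fun i _ => Finset.sum_nonneg fun k _ => hCm0 _ _
  set A : ℝ := 8 * BB κ C1 c0 CG CR CT cX N with hA
  have hA0 : 0 ≤ A := mul_nonneg (by norm_num) K.BB_nonneg
  have hC1 := K.C1p
  have hc0 := K.c0p
  set Bb : ℝ := CR * A + C1 / c0 with hBb
  have hBb0 : 0 ≤ Bb := by positivity
  set Bd : ℝ := CT2 * A + C1 * CT2 / c0 * (1 / (1 - 1 / κ2)) with hBd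
  have hκ20 : 0 < κ2 := by linarith
  have hx1 : 1 / κ2 < 1 := by rw [div_lt_one hκ20]; exact hκ2
  have h1k : 0 < 1 - 1 / κ2 := by linarith
  have hBd0 : 0 ≤ Bd := by positivity
  set Bc : ℝ := |δ| * (A + A) / cQ with hBc
  have hBc0 : 0 ≤ Bc := by positivity
  refine ⟨S1 + S2 + A + Bb + Bc + Bd + 1, by positivity, fun v hv hAl => ?_⟩
  have hU := mem_U hr hv
  have hAl' : ∀ m, |Yf δ d m v| ≤ 1 ∨ |Yf δ d (m + 1) v| ≤ 1 := hAl
  have hz0 : ∀ l, 1 < |Yf δ d l v| → |(orb d (ze δ v) l).z| ≤ 1 := by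
    intro l hl
    rcases l with _ | l
    · exact hU.le
    · rw [orb_succ_z]
      exact (hAl' l).resolve_right (not_le.2 hl)
  have hTT : ∀ l, 1 < |Yf δ d l v| → ∀ i ≤ d l, |Tf δ d l i v| ≤ 1 := by
    intro l hl i hi
    refine (HN1 (orb d (ze δ v) l) 0 (d l) ((hS v hU).orb d l) hl (Nat.zero_le _) (hz0 l hl)
      ?_).1 i (Nat.zero_le _) hi
    exact (hAl' l).resolve_left (not_le.2 hl)
  have hF : ∀ M, 3 ≤ M → |Yf δ d M v| ≤ 1 →
      |sg θ δ d v - sl (Yf δ d M) v| * 2 ^ (M / 2) ≤ CF := fun M hM hY => HF v hv M hM hY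
  have pa : ∀ j, 2 ≤ j → |Yf δ d j v| ≤ 1 →
      |dt (Yf δ d j) v| * |sg θ δ d v - sl (Yf δ d j) v| ≤ A := fun j hj hY =>
    K.parta hv hCF.le hF hAl' hTT hj hY
  have DY : ∀ j, 2 ≤ j → |Yf δ d j v| ≤ κ → |dz (Yf δ d j) v + sg θ δ d v * dt (Yf δ d j) v| =
      |dt (Yf δ d j) v| * |sg θ δ d v - sl (Yf δ d j) v| := fun j hj hY =>
    D_eq (K.neY d hd j hj v hv hY) _
  constructor
  · intro j
    rcases Nat.lt_or_ge j 3 with hj | hj
    · have h1 := (hCm d j v hv).trans (hS1le j hj)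
      linarith
    · by_cases h1 : |Yf δ d j v| ≤ 1
      · rw [DY j (by omega) (h1.trans hκ.le)]
        have := pa j (by omega) h1
        linarith
      · have h1' := not_le.1 h1
        have hn : |Yf δ d (j + 1) v| ≤ 1 := (hAl' j).resolve_left h1
        by_cases h2 : |Yf δ d j v| ≤ κ
        · rw [DY j (by omega) h2]
          have := K.partb hv (s := sg θ δ d v) (by omega : 2 ≤ j) h2 (hn.trans hκ.le) hA0
            (pa (j + 1) (by omega) hn)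
          linarith
        · obtain ⟨i, rfl⟩ : ∃ i, j = i + 1 := ⟨j - 1, by omega⟩
          have hp : |Yf δ d i v| ≤ 1 := (hAl' i).resolve_right h1
          obtain ⟨u0, hu0⟩ := dirder hCoord hDt δ d hU (sg θ δ d v)
          have hq1 : |(orb d (ze δ v) (i + 1)).z| ≤ 1 := by
            rw [orb_succ_z]; exact hp
          obtain ⟨q1, q2, q3⟩ := HQ (orb d (ze δ v) (i + 1)) (d (i + 1)) ((hS v hU).orb d (i + 1))
            (hd _) (hq1.trans hκ.le) (hn.trans hκ.le)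
          have q4 := q3 _ (hu0 (i + 1)).2
          rw [q2, dorb_succ_z, ← dorb_succ_y] at q4
          rw [(hu0 (i + 1)).1, (hu0 (i + 1 + 1)).1, (hu0 i).1] at q4
          have g1 : |gX (orb d (ze δ v) (i + 1))| ≤ |δ| := by
            refine gX_le ((hS v hU).orb d (i + 1)) ?_
            exact mul_nonpos_of_nonpos_of_nonneg (one_le_sq_of h1') (sq_le_one_of hq1)
          have g2 : |gX (stepT (d (i + 1)) (orb d (ze δ v) (i + 1)))| ≤ |δ| := by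
            refine gX_le (δ := δ) (p := orb d (ze δ v) (i + 1 + 1))
              ((hS v hU).orb d (i + 1 + 1)) ?_
            refine mul_nonpos_of_nonneg_of_nonpos (sq_le_one_of hn) ?_
            rw [orb_succ_z]
            exact one_le_sq_of h1'
          have a1 : |dz (Yf δ d i) v + sg θ δ d v * dt (Yf δ d i) v| ≤ A := by
            rw [DY i (by omega) (hp.trans hκ.le)]
            exact pa i (by omega) hp
          have a2 : |dz (Yf δ d (i + 1 + 1)) v + sg θ δ d v * dt (Yf δ d (i + 1 + 1)) v| ≤ A := by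
            rw [DY (i + 1 + 1) (by omega) (hn.trans hκ.le)]
            exact pa (i + 1 + 1) (by omega) hn
          have a3 : |dz (Yf δ d (i + 1)) v + sg θ δ d v * dt (Yf δ d (i + 1)) v| * cQ ≤
              |δ| * (A + A) := by
            calc |dz (Yf δ d (i + 1)) v + sg θ δ d v * dt (Yf δ d (i + 1)) v| * cQ
                ≤ |dz (Yf δ d (i + 1)) v + sg θ δ d v * dt (Yf δ d (i + 1)) v| *
                  |(dRk (d (i + 1)) (orb d (ze δ v) (i + 1)) (fV (orb d (ze δ v) (i + 1)))).z| :=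
                  mul_le_mul_of_nonneg_left q1 (abs_nonneg _)
              _ = |gX (orb d (ze δ v) (i + 1)) *
                    (dz (Yf δ d (i + 1 + 1)) v + sg θ δ d v * dt (Yf δ d (i + 1 + 1)) v) -
                  (dz (Yf δ d i) v + sg θ δ d v * dt (Yf δ d i) v) *
                    gX (stepT (d (i + 1)) (orb d (ze δ v) (i + 1)))| := by
                  rw [← abs_mul, q4]
              _ ≤ |δ| * A + A * |δ| := by
                  refine (abs_sub _ _).trans ?_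
                  rw [abs_mul, abs_mul]
                  exact add_le_add
                    (mul_le_mul g1 a2 (abs_nonneg _) (abs_nonneg _))
                    (mul_le_mul a1 g2 (abs_nonneg _) hA0)
              _ = |δ| * (A + A) := by ring
          have a4 : |dz (Yf δ d (i + 1)) v + sg θ δ d v * dt (Yf δ d (i + 1)) v| ≤ Bc := by
            rw [hBc, le_div_iff₀ hcQ]
            exact a3
          linarith
  · intro j k hj1 hk
    rcases Nat.lt_or_ge j 3 with hj | hj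
    · have h1 := (hCm (Function.update d j k) (j + 1) v hv).trans (hS2le j hj k hk)
      rw [← Tf_eq] at h1
      linarith
    · have h1 : 1 < |Yf δ d j v| := lt_of_lt_of_le hκ2 hj1
      have hn : |Yf δ d (j + 1) v| ≤ 1 := (hAl' j).resolve_left (not_le.2 h1)
      have hT : ∀ i ≤ d j, |Tf δ d j i v| ≤ κ := fun i hi => (hTT j h1 i hi).trans hκ.le
      rw [D_eq (K.neT d hd j k hj v hv (hT k hk))]
      have := K.partd hv (s := sg θ δ d v) (A := A) (j := j) (k := k) hκ2 hCT2 hj hk hT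
        (fun k l hkl h3 h4 => HT2 d hd j k l hkl v hU hj1 h3 h4) hA0 (pa (j + 1) (by omega) hn)
      linarith

end Pool.Agent.H549.Tm
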